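import Pool.Agent.BLP.StmtsM

/-!
# Squad BLP: row M_LLQ
-/

namespace Pool.Agent.BLP.H68

open Pool.Agent.BLP MeasureTheory ProbabilityTheory Filter Topology Finset
open scoped ENNReal

theorem llq (hLL1 : Ll1Stmt) (hScf : ScfStmt) (hMea : MeaStmt) (hInt : IntStmt) : LlqStmt := by
  intro X _ μ B h c hc y η hy hη
  have := h.prob
  have hy' : (0 : ℝ) < y := by exact_mod_cast hy
  have hsy : 0 < Real.sqrt y := Real.sqrt_pos.2 hy'
  set ε0 : ℝ := η / (4 * Real.sqrt y) with hε0
  have hε0' : 0 < ε0 := by positivity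
  set F : ℕ → X → ℝ := fun n x => L (B x) 0 0 (((n + 1 : ℕ) : ℤ) - 1) ((n + 1 : ℕ) : ℝ) with hF
  have h2 : Tendsto (fun n : ℕ => ∫ x, |F n x / ((n + 1 : ℕ) : ℝ) - c| ∂μ) atTop (𝓝 0) :=
    (hLL1 X μ B h c hc).comp (tendsto_add_atTop_nat 1)
  have h3 : Tendsto (fun n : ℕ => ENNReal.ofReal
      ((∫ x, |F n x / ((n + 1 : ℕ) : ℝ) - c| ∂μ) / ε0)) atTop (𝓝 0) := by
    have := ENNReal.tendsto_ofReal (h2.div_const ε0)
    simpa using this
  refine tendsto_of_tendsto_of_tendsto_of_le_of_le' tendsto_const_nhds h3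
    (Eventually.of_forall fun _ => bot_le) ?_
  filter_upwards [eventually_ge_atTop (max 1 ⌈2 * |c| * Real.sqrt y / η⌉₊)] with n hn
  have hn1 : 1 ≤ n := (le_max_left _ _).trans hn
  have hn1' : (1 : ℝ) ≤ n := by exact_mod_cast hn1
  have hn0 : (0 : ℝ) < n := by linarith
  have hnc : 2 * |c| * Real.sqrt y ≤ η * n := by
    have h4 : 2 * |c| * Real.sqrt y / η ≤ n :=
      (Nat.le_ceil _).trans (by exact_mod_cast (le_max_right _ _).trans hn)
    rw [div_le_iff₀ hη] at h4
    linarith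
  set l : ℚ := y * n / (n + 1) with hl
  have hl0 : 0 < l := by positivity
  have hlr : ((l : ℚ) : ℝ) = y * n / (n + 1) := by rw [hl]; push_cast; rfl
  obtain ⟨T, hT, hTe⟩ := hScf X μ B h l hl0
  have hFm : Measurable (F n) := hMea X μ B h _ _ _ _
  have hFi : Integrable (F n) μ := (hInt X μ B h _ _ _ _).integrable (by norm_num)
  set A : Set X := {x | η * n < |Real.sqrt l * F n x - c * Real.sqrt (n * (n * y))|} with hA
  have hAm : MeasurableSet A :=
    measurableSet_lt measurable_const (((hFm.const_mul _).sub_const _).norm)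
  have hsl : 0 < Real.sqrt l := Real.sqrt_pos.2 (by exact_mod_cast hl0)
  have e1 : μ {x | η * n < |L (B x) 0 0 n (n * y) - c * Real.sqrt (n * (n * y))|} =
      μ (T ⁻¹' A) := by
    refine measure_congr ?_
    filter_upwards [hTe] with x hx
    have hx1 := hx 0 0 n ((n + 1 : ℕ) : ℝ)
    have e2 : ((l : ℚ) : ℝ) * ((n + 1 : ℕ) : ℝ) = n * y := by
      rw [hlr]; push_cast; field_simp
    rw [mul_zero, e2] at hx1
    have e3 : L (B x) 0 0 n (n * y) = Real.sqrt l * F n (T x) := by
      rw [hF]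
      simp only [Nat.cast_add, Nat.cast_one, add_sub_cancel_right]
      rw [Nat.cast_add, Nat.cast_one] at hx1
      rw [hx1]
      field_simp
    refine propext ?_
    show (η * n < |L (B x) 0 0 n (n * y) - c * Real.sqrt (n * (n * y))|) ↔
      (η * n < |Real.sqrt l * F n (T x) - c * Real.sqrt (n * (n * y))|)
    rw [e3]
  rw [e1, hT.measure_preimage hAm.nullMeasurableSet]
  have hsub : A ⊆ {x | ε0 ≤ |F n x / ((n + 1 : ℕ) : ℝ) - c|} := by
    intro x hx
    have hx' : η * n < |Real.sqrt l * F n x - c * Real.sqrt (n * (n * y))| := hx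
    show ε0 ≤ |F n x / ((n + 1 : ℕ) : ℝ) - c|
    by_contra hcon
    push Not at hcon
    set G := |F n x / ((n + 1 : ℕ) : ℝ) - c| with hG
    have hG0 : 0 ≤ G := abs_nonneg _
    have hnn : ((n + 1 : ℕ) : ℝ) = n + 1 := by push_cast; rfl
    have hn2 : (0 : ℝ) < n + 1 := by positivity
    -- sqrt l (n + 1) = sqrt y sqrt (n (n + 1))
    have f1 : Real.sqrt l ≤ Real.sqrt y := by
      refine Real.sqrt_le_sqrt ?_
      rw [hlr, div_le_iff₀ hn2]
      nlinarith
    have f2 : Real.sqrt (n * (n * y)) = n * Real.sqrt y := by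
      rw [← mul_assoc, Real.sqrt_mul (by positivity), Real.sqrt_mul_self hn0.le]
    have f3 : n * Real.sqrt y ≤ Real.sqrt l * (n + 1) := by
      rw [← f2]
      refine Real.sqrt_le_iff.2 ⟨by positivity, ?_⟩
      rw [mul_pow, Real.sq_sqrt (by exact_mod_cast hl0.le), hlr]
      have : (y : ℝ) * n / (n + 1) * (n + 1) ^ 2 = y * n * (n + 1) := by field_simp
      rw [this]
      nlinarith [mul_pos hy' hn0]
    have f4 : |Real.sqrt l * (n + 1) - n * Real.sqrt y| ≤ Real.sqrt y := by
      rw [abs_of_nonneg (by linarith)]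
      nlinarith
    have f5 : Real.sqrt l * F n x - c * Real.sqrt (n * (n * y)) =
        Real.sqrt l * (n + 1) * (F n x / ((n + 1 : ℕ) : ℝ) - c) +
          c * (Real.sqrt l * (n + 1) - n * Real.sqrt y) := by
      rw [f2, hnn]; field_simp; ring
    have f6 : |Real.sqrt l * F n x - c * Real.sqrt (n * (n * y))| ≤
        Real.sqrt y * (n + 1) * G + |c| * Real.sqrt y := by
      rw [f5]
      refine (abs_add_le _ _).trans ?_
      rw [abs_mul, abs_mul c, abs_of_pos (mul_pos hsl hn2)]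
      refine add_le_add ?_ ?_
      · exact mul_le_mul_of_nonneg_right (mul_le_mul_of_nonneg_right f1 hn2.le) hG0
      · exact mul_le_mul_of_nonneg_left f4 (abs_nonneg _)
    have f7 : Real.sqrt y * (n + 1) * G ≤ Real.sqrt y * (2 * n) * ε0 :=
      mul_le_mul (mul_le_mul_of_nonneg_left (by linarith) hsy.le) hcon.le hG0 (by positivity)
    have f8 : Real.sqrt y * (2 * n) * ε0 = η * n / 2 := by
      rw [hε0]; field_simp; ring
    linarith
  refine (measure_mono hsub).trans ?_
  have hint : Integrable (fun x => |F n x / ((n + 1 : ℕ) : ℝ) - c|) μ :=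
    ((hFi.div_const _).sub (integrable_const _)).abs
  have hmk := mul_meas_ge_le_integral_of_nonneg (μ := μ)
    (Eventually.of_forall fun x => abs_nonneg (F n x / ((n + 1 : ℕ) : ℝ) - c)) hint ε0
  rw [← ENNReal.ofReal_toReal (measure_ne_top μ {x | ε0 ≤ |F n x / ((n + 1 : ℕ) : ℝ) - c|})]
  refine ENNReal.ofReal_le_ofReal ?_
  rw [le_div_iff₀ hε0', mul_comm]
  exact hmk

end Pool.Agent.BLP.H68
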