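import Pool.Agent.BLP.StmtsA

/-!
# Squad BLP: rows A_SUB and A_BEL
-/

namespace Pool.Agent.BLP.H68

open Pool.Agent.BLP

theorem pa_part {m n k l : ℤ} {s t : ℝ} {τ : ℤ → ℝ} (hp : Pa m s n t τ) (hk : m ≤ k)
    (hl : l ≤ n) : Pa k (τ (k - 1)) l (τ l) τ :=
  ⟨rfl, rfl, fun r h1 h2 => hp.2.2 r (hk.trans h1) (h2.trans hl)⟩

theorem suf (hE : EnaStmt) (hP : PabStmt) (hB : BddStmt) (hS : SplStmt) {b : Env} (hb : Cts b)
    {m n : ℤ} {s t : ℝ} {τ : ℤ → ℝ} (hmn : m ≤ n) (hp : Pa m s n t τ)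
    (he : En b τ m n = L b m s n t) {k : ℤ} (hk : m ≤ k) (hkn : k ≤ n) :
    En b τ k n = L b k (τ (k - 1)) n (τ n) := by
  rcases eq_or_lt_of_le hk with rfl | hlt
  · rw [hp.1, hp.2.1]; exact he
  · obtain ⟨h1, h2, h3⟩ := hP m n s t τ hp hmn
    have hst : s ≤ t := h3
    have hk1 := h2 (k - 1) (by omega) (by omega)
    have e1 := (hE b τ m n).1 (k - 1) (by omega) (by omega)
    rw [sub_add_cancel] at e1
    have a1 := (hB b hb m (k - 1) s (τ (k - 1)) (by omega) hk1.1).2.1 τ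
      (by have := pa_part (k := m) (l := k - 1) hp le_rfl (by omega); rwa [hp.1] at this)
    have a2 := (hB b hb k n (τ (k - 1)) (τ n) hkn (by rw [hp.2.1]; exact hk1.2)).2.1 τ
      (pa_part hp hk le_rfl)
    have a3 := (hS b hb m (k - 1) n s t (by omega) (by omega) hst).1 (τ (k - 1)) hk1.1 hk1.2
    rw [sub_add_cancel, ← hp.2.1] at a3
    rw [← hp.2.1] at he
    linarith

theorem sub_ (hE : EnaStmt) (hP : PabStmt) (hB : BddStmt) (hS : SplStmt) : SubStmt := by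
  intro b hb m n s t τ hmn hp he k l hk hkl hln
  have h0 := suf hE hP hB hS hb hmn hp he hk (hkl.trans hln)
  have hp' : Pa k (τ (k - 1)) n (τ n) τ := pa_part hp hk le_rfl
  rcases eq_or_lt_of_le hln with rfl | hlt
  · exact h0
  · obtain ⟨h1, h2, h3⟩ := hP k n (τ (k - 1)) (τ n) τ hp' (hkl.trans hln)
    have hl1 := h2 l (by omega) hln
    have e1 := (hE b τ k n).1 l (by omega) hln
    have a1 := (hB b hb k l (τ (k - 1)) (τ l) hkl hl1.1).2.1 τ (pa_part hp hk hln)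
    have a2 := (hB b hb (l + 1) n (τ l) (τ n) (by omega) hl1.2).2.1 τ
      (by have := pa_part (k := l + 1) (l := n) hp (by omega) le_rfl
          rwa [add_sub_cancel_right] at this)
    have a3 := (hS b hb k l n (τ (k - 1)) (τ n) hkl hlt h3).1 (τ l) hl1.1 hl1.2
    linarith

theorem bel (h1 : OneStmt) (hS : SplStmt) : BelStmt := by
  intro b hb m n s t hmn hst
  obtain ⟨p1, u1, q1, q2, q3⟩ := hS b hb m m n s t le_rfl hmn hst
  obtain ⟨p2, u2, r1, r2, r3⟩ := hS b hb m (n - 1) n s t (by omega) (by omega) hst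
  rw [sub_add_cancel] at r3
  have o := (h1 b).1
  refine ⟨fun u hu hu' => ?_, ⟨u1, q1, q2, ?_⟩, fun u hu hu' => ?_, ⟨u2, r1, r2, ?_⟩⟩
  · rw [← o m s u hu]; exact p1 u hu hu'
  · rw [← o m s u1 q1]; exact q3
  · have := p2 u hu hu'
    rw [sub_add_cancel] at this
    rw [← o n u t hu']; exact this
  · rw [← o n u2 t r2]; exact r3

end Pool.Agent.BLP.H68
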