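import Pool.Agent.BLP.StmtsV

/-!
# Squad BLP: row V_BOX
-/

namespace Pool.Agent.BLP.V.H68

open Pool.Agent.BLP.V Finset

theorem tele (f : ℕ → ℝ) {i j : ℕ} (h : i ≤ j) :
    ∑ k ∈ Ico i j, (f (k + 1) - f k) = f j - f i := by
  induction j, h using Nat.le_induction with
  | base => simp
  | succ j hj ih => rw [Finset.sum_Ico_succ_top hj, ih]; ring

theorem half_sq (l : ℕ → ℝ) (K : ℕ) :
    ∑ j ∈ range K, ∑ i ∈ range j, l i * l j ≤ (∑ i ∈ range K, l i) ^ 2 / 2 := by
  induction K with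
  | zero => simp
  | succ K ih =>
    rw [Finset.sum_range_succ, Finset.sum_range_succ (fun i => l i) K, ← Finset.sum_mul]
    nlinarith [sq_nonneg (l K)]

theorem box (hRec : RecStmt) (hChn : ChnStmt) : BoxStmt := by
  intro n U hL e e' hee q M p R d S t₀ t₁ x₁ x₂ x₃ hq hM hp hR hR0 hd hS hw0 hw1 hx hv
  classical
  obtain ⟨K, y, hy0, hyK, hyl, hyE⟩ := hChn e e' (S.image x₁ ∪ S.image x₂ ∪ S.image x₃) hee (by
    intro x hx'
    rw [mem_union, mem_union, mem_image, mem_image, mem_image] at hx'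
    rcases hx' with (⟨z, hz, rfl⟩ | ⟨z, hz, rfl⟩) | ⟨z, hz, rfl⟩
    · obtain ⟨a1, a2, a3, a4⟩ := hx z hz; constructor <;> linarith
    · obtain ⟨a1, a2, a3, a4⟩ := hx z hz; constructor <;> linarith
    · obtain ⟨a1, a2, a3, a4⟩ := hx z hz; constructor <;> linarith)
  have hyle : ∀ i j, i ≤ j → j ≤ K → y i ≤ y j := by
    intro i j hij hj
    rcases eq_or_lt_of_le hij with rfl | h
    · exact le_rfl
    · exact (hyl i j h hj).le
  -- the differences
  set w : ℕ → ℕ → ℝ → ℝ := fun i k t => U (y (i + 1)) k t - U (y i) k t with hwdef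
  set a : ℕ × ℕ → ℕ → ℝ := fun z i =>
    max (w i ((z.1 + 1) * q) (t₁ z) - w i (z.1 * q) (t₀ z)) 0 with hadef
  set b : ℕ × ℕ → ℕ → ℝ := fun z i =>
    max (w i (z.1 * q) (t₀ z) - w i ((z.1 + 1) * q) (t₁ z)) 0 with hbdef
  have ha0 : ∀ z i, 0 ≤ a z i := fun z i => le_max_right _ _
  have hb0 : ∀ z i, 0 ≤ b z i := fun z i => le_max_right _ _
  have htel : ∀ (i j k : ℕ) (t : ℝ), i ≤ j → ∑ l ∈ Ico i j, w l k t = U (y j) k t - U (y i) k t :=
    fun i j k t hij => tele (fun l => U (y l) k t) hij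
  -- one site
  have hone : ∀ z ∈ S, d ^ 2 ≤ ∑ j ∈ range K, ∑ i ∈ range j, a z i * b z j := by
    intro z hz
    obtain ⟨i1, hi1, e1⟩ := hyE (x₁ z) (by
      rw [mem_union, mem_union]; exact Or.inl (Or.inl (mem_image_of_mem _ hz)))
    obtain ⟨i2, hi2, e2⟩ := hyE (x₂ z) (by
      rw [mem_union, mem_union]; exact Or.inl (Or.inr (mem_image_of_mem _ hz)))
    obtain ⟨i3, hi3, e3⟩ := hyE (x₃ z) (by
      rw [mem_union, mem_union]; exact Or.inr (mem_image_of_mem _ hz))
    obtain ⟨b1, b2, b3, b4⟩ := hx z hz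
    have h12 : i1 ≤ i2 := by
      by_contra hc
      push Not at hc
      have := hyl i2 i1 hc hi1
      rw [e1, e2] at this
      linarith
    have h23 : i2 ≤ i3 := by
      by_contra hc
      push Not at hc
      have := hyl i3 i2 hc hi2
      rw [e3, e2] at this
      linarith
    obtain ⟨v1, v3⟩ := hv z hz
    have sa : d ≤ ∑ i ∈ Ico i1 i2, a z i := by
      have s1 : ∑ i ∈ Ico i1 i2, (w i ((z.1 + 1) * q) (t₁ z) - w i (z.1 * q) (t₀ z)) ≤
          ∑ i ∈ Ico i1 i2, a z i := Finset.sum_le_sum fun i _ => le_max_left _ _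
      rw [Finset.sum_sub_distrib, htel _ _ _ _ h12, htel _ _ _ _ h12, e1, e2] at s1
      linarith
    have sb : d ≤ ∑ j ∈ Ico i2 i3, b z j := by
      have s1 : ∑ i ∈ Ico i2 i3, (w i (z.1 * q) (t₀ z) - w i ((z.1 + 1) * q) (t₁ z)) ≤
          ∑ i ∈ Ico i2 i3, b z i := Finset.sum_le_sum fun i _ => le_max_left _ _
      rw [Finset.sum_sub_distrib, htel _ _ _ _ h23, htel _ _ _ _ h23, e2, e3] at s1
      linarith
    calc d ^ 2 = d * d := by ring
      _ ≤ (∑ i ∈ Ico i1 i2, a z i) * ∑ j ∈ Ico i2 i3, b z j :=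
          mul_le_mul sa sb hd (Finset.sum_nonneg fun i _ => ha0 z i)
      _ = ∑ j ∈ Ico i2 i3, (∑ i ∈ Ico i1 i2, a z i) * b z j := Finset.mul_sum _ _ _
      _ ≤ ∑ j ∈ Ico i2 i3, (∑ i ∈ range j, a z i) * b z j := by
          refine Finset.sum_le_sum fun j hj => mul_le_mul_of_nonneg_right ?_ (hb0 z j)
          refine Finset.sum_le_sum_of_subset_of_nonneg ?_ fun i _ _ => ha0 z i
          intro i hi
          rw [mem_Ico] at hi hj
          rw [mem_range]
          omega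
      _ ≤ ∑ j ∈ range K, (∑ i ∈ range j, a z i) * b z j := by
          refine Finset.sum_le_sum_of_subset_of_nonneg ?_ fun j _ _ =>
            mul_nonneg (Finset.sum_nonneg fun i _ => ha0 z i) (hb0 z j)
          intro j hj
          rw [mem_Ico] at hj
          rw [mem_range]
          omega
      _ = ∑ j ∈ range K, ∑ i ∈ range j, a z i * b z j :=
          Finset.sum_congr rfl fun j _ => Finset.sum_mul _ _ _
  -- sum over the sites
  set l : ℕ → ℝ := fun i => w i 0 R - w i M 0 with hldef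
  have hrec : ∀ j < K, ∀ i < j, ∑ z ∈ S, a z i * b z j ≤ l i * l j := by
    intro j hj i hi
    exact hRec n U hL (y i) (y (i + 1)) (y j) (y (j + 1)) (hyle _ _ (by omega) (by omega))
      (hyle _ _ (by omega) (by omega)) (hyle _ _ (by omega) (by omega)) q M p R S t₀ t₁ hq hM hp
      (hR.trans (hy0 ▸ hyle 0 i (by omega) (by omega))) hR0 hS hw0 hw1
  have hsum : ∑ i ∈ range K, l i = (U e' 0 R - U e 0 R) - (U e' M 0 - U e M 0) := by
    rw [hldef, Finset.sum_sub_distrib, Finset.range_eq_Ico, htel _ _ _ _ (Nat.zero_le _),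
      htel _ _ _ _ (Nat.zero_le _), hy0, hyK]
  rw [← hsum]
  calc (S.card : ℝ) * d ^ 2 = ∑ z ∈ S, d ^ 2 := by rw [Finset.sum_const, nsmul_eq_mul]
    _ ≤ ∑ z ∈ S, ∑ j ∈ range K, ∑ i ∈ range j, a z i * b z j := Finset.sum_le_sum hone
    _ = ∑ j ∈ range K, ∑ i ∈ range j, ∑ z ∈ S, a z i * b z j := by
        rw [Finset.sum_comm]
        exact Finset.sum_congr rfl fun j _ => Finset.sum_comm
    _ ≤ ∑ j ∈ range K, ∑ i ∈ range j, l i * l j :=
        Finset.sum_le_sum fun j hj => Finset.sum_le_sum fun i hi =>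
          hrec j (mem_range.1 hj) i (mem_range.1 hi)
    _ ≤ (∑ i ∈ range K, l i) ^ 2 / 2 := half_sq l K

end Pool.Agent.BLP.V.H68
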