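import Pool.Agent.BLP.StmtsV
import Pool.Agent.Helper23_BLP.D_CLO

/-!
# Squad BLP, row V_CLO (helper68): closeness to the Busemann functions, from row D_CLO (helper23)
-/

namespace Pool.Agent.BLP.V.H68

open MeasureTheory ProbabilityTheory Filter Topology Pool.Agent.BLP
open scoped ENNReal

noncomputable section

/-- a monotone path goes to the right -/
theorem path_le (τ : ℤ → ℝ) (m n : ℤ) (hmn : m ≤ n)
    (h : ∀ r, m ≤ r → r ≤ n → τ (r - 1) ≤ τ r) : τ (m - 1) ≤ τ n := by
  obtain ⟨k, hk⟩ := Int.le.dest hmn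
  have key : ∀ i : ℕ, m + (i : ℤ) ≤ n → τ (m - 1) ≤ τ (m + i) := by
    intro i
    induction i with
    | zero =>
      intro hi
      have h1 := h m le_rfl hmn
      simpa using h1
    | succ i ih =>
      intro hi
      push_cast at hi ⊢
      have h1 := ih (by omega)
      have h2 := h (m + (i + 1)) (by omega) hi
      have h3 : m + ((i : ℤ) + 1) - 1 = m + i := by ring
      rw [h3] at h2
      exact h1.trans h2
  have h4 := key k (by omega)
  rwa [hk] at h4

/-- degenerate last-passage values are zero -/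
theorem L_deg (b : Env) (m : ℤ) (s : ℝ) (n : ℤ) (t : ℝ) (h : ¬ (m ≤ n ∧ s ≤ t)) :
    L b m s n t = 0 := by
  unfold L
  by_cases hmn : m ≤ n
  · have hst : t < s := by
      by_contra hc
      exact h ⟨hmn, not_lt.1 hc⟩
    have hE : {E | ∃ τ : ℤ → ℝ, τ (m - 1) = s ∧ τ n = t ∧
        (∀ r, m ≤ r → r ≤ n → τ (r - 1) ≤ τ r) ∧ E = En b τ m n} = ∅ := by
      ext E
      constructor
      · rintro ⟨τ, h1, h2, h3, -⟩
        have h4 := path_le τ m n hmn h3
        rw [h1, h2] at h4
        exact absurd h4 (not_le.2 hst)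
      · intro hE
        exact absurd hE (Set.notMem_empty E)
    rw [hE, Real.sSup_empty]
  · have hsub : {E | ∃ τ : ℤ → ℝ, τ (m - 1) = s ∧ τ n = t ∧
        (∀ r, m ≤ r → r ≤ n → τ (r - 1) ≤ τ r) ∧ E = En b τ m n} ⊆ {0} := by
      rintro E ⟨τ, -, -, -, h4⟩
      rw [h4]
      unfold En
      rw [Finset.Icc_eq_empty hmn, Finset.sum_empty]
      exact Set.mem_singleton 0
    rcases Set.subset_singleton_iff_eq.1 hsub with h0 | h0
    · rw [h0, Real.sSup_empty]
    · rw [h0, csSup_singleton]

/-- measurability of all last-passage values -/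
theorem mea_all (mea : MeaStmt) (X : Type) [MeasurableSpace X] (μ : Measure X) (B : X → Env)
    (hSp : Sp μ B) (m : ℤ) (s : ℝ) (n : ℤ) (t : ℝ) : Measurable fun x => L (B x) m s n t := by
  by_cases h : m ≤ n ∧ s ≤ t
  · exact mea X μ B hSp m n s t h.1 h.2
  · have h0 : (fun x => L (B x) m s n t) = fun _ => (0 : ℝ) := by
      funext x
      exact L_deg (B x) m s n t h
    rw [h0]
    exact measurable_const

theorem clo (mea : MeaStmt) (inc : IncStmt) : V.CloStmt := by
  intro X _ μ B hSp β hIn hae m k p q ρ d hρ hd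
  exact Pool.Agent.BLP.H23.d_clo inc X μ B β hSp (mea_all mea X μ B hSp) hIn hae m k p q ρ d hρ hd

end

end Pool.Agent.BLP.V.H68
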