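import Pool.Agent.BLP.StmtsV

/-!
# Squad BLP, row V_LLW (helper68): law of large numbers for the four-point difference
-/

namespace Pool.Agent.BLP.V.H68

open MeasureTheory ProbabilityTheory Filter Topology Pool.Agent.BLP
open scoped ENNReal

noncomputable section

/-- the exceptional event of the law of large numbers, for one environment -/
def Bad (c A η : ℝ) (n : ℕ) (b : Env) : Prop :=
  ∃ e : ℝ, 0 ≤ e ∧ e ≤ A * n ∧ η * n < |L b 0 0 n e - c * Real.sqrt (n * e)|

theorem mp_le {X : Type} [MeasurableSpace X] {μ : Measure X} {T : X → X}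
    (hT : MeasurePreserving T μ μ) (S : Set X) : μ (T ⁻¹' S) ≤ μ S := by
  calc μ (T ⁻¹' S) ≤ μ (T ⁻¹' (toMeasurable μ S)) :=
        measure_mono (Set.preimage_mono (subset_toMeasurable μ S))
    _ = μ (toMeasurable μ S) :=
        hT.measure_preimage (measurableSet_toMeasurable μ S).nullMeasurableSet
    _ = μ S := measure_toMeasurable S

theorem shift_le {X : Type} [MeasurableSpace X] {μ : Measure X} {B : X → Env} {T : X → X}
    (hT : MeasurePreserving T μ μ) (f : Env → Env) (h : ∀ᵐ x ∂μ, B (T x) = f (B x))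
    (E : Env → Prop) : μ {x | E (f (B x))} ≤ μ {x | E (B x)} := by
  have h1 : μ {x | E (f (B x))} ≤ μ (T ⁻¹' {x | E (B x)}) := by
    apply measure_mono_ae
    filter_upwards [h] with x hx hE
    show E (B (T x))
    rw [hx]; exact hE
  exact h1.trans (mp_le hT _)

theorem sqrt_scale (s u v : ℝ) (hs : 0 ≤ s) :
    Real.sqrt ((u * s) * (s * v)) = s * Real.sqrt (u * v) := by
  have h : (u * s) * (s * v) = s ^ 2 * (u * v) := by ring
  rw [h, Real.sqrt_mul (sq_nonneg s), Real.sqrt_sq hs]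

/-- the deterministic part -/
theorem det (cov : CovStmt) (b : Env) (c α α' η : ℝ) (p q K s : ℕ)
    (hα : 0 < α) (hα' : α < α') (hη : 0 < η) (hq : q < K)
    (hp : (p : ℝ) < (K - q) * α)
    (h1 : ¬ Bad c (K * α' + p) (η / (4 * K)) (K * s) (shT ((s * p : ℕ) : ℝ) b))
    (h2 : ¬ Bad c (K * α' + p) (η / (4 * K)) ((K - q) * s) (shL ((s * q : ℕ) : ℤ) b)) :
    |Wd b α α' p q s (K * s) - s * wK c α α' p q K| ≤ η * s := by
  have hK0 : 0 < K := lt_of_le_of_lt (Nat.zero_le q) hq
  have hKr : (1 : ℝ) ≤ K := by exact_mod_cast hK0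
  have hKq : (1 : ℝ) ≤ (K : ℝ) - q := by
    have h : (q : ℝ) + 1 ≤ K := by exact_mod_cast hq
    linarith
  have hs0 : (0 : ℝ) ≤ s := Nat.cast_nonneg s
  have hp0 : (0 : ℝ) ≤ p := Nat.cast_nonneg p
  have hq0 : (0 : ℝ) ≤ q := Nat.cast_nonneg q
  have hcK : (((K - q) * s : ℕ) : ℝ) = ((K : ℝ) - q) * s := by
    rw [Nat.cast_mul, Nat.cast_sub hq.le]
  have hcK' : ((K * s : ℕ) : ℝ) = (K : ℝ) * s := by push_cast; ring
  have hα'0 : 0 < α' := hα.trans hα'
  -- the two families of estimates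
  have e1 : ∀ e : ℝ, 0 ≤ e → e ≤ (K * α' + p) * (K * s) →
      |L (shT ((s * p : ℕ) : ℝ) b) 0 0 ((K * s : ℕ) : ℤ) e - c * Real.sqrt (((K * s : ℕ) : ℝ) * e)|
        ≤ η / 4 * s := by
    intro e he0 he
    by_contra hcon
    apply h1
    refine ⟨e, he0, ?_, ?_⟩
    · rw [hcK']; exact he
    · rw [not_le] at hcon
      refine lt_of_le_of_lt (le_of_eq ?_) hcon
      rw [hcK']
      field_simp
  have e2 : ∀ e : ℝ, 0 ≤ e → e ≤ (K * α' + p) * ((K - q) * s) →
      |L (shL ((s * q : ℕ) : ℤ) b) 0 0 (((K - q) * s : ℕ) : ℤ) e -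
        c * Real.sqrt ((((K - q) * s : ℕ) : ℝ) * e)| ≤ η / 4 * s := by
    intro e he0 he
    by_contra hcon
    apply h2
    refine ⟨e, he0, ?_, ?_⟩
    · rw [hcK]; exact he
    · rw [not_le] at hcon
      refine lt_of_le_of_lt ?_ hcon
      rw [hcK]
      have h3 : η / (4 * K) * (((K : ℝ) - q) * s) ≤ η / (4 * K) * (K * s) := by
        apply mul_le_mul_of_nonneg_left _ (by positivity)
        apply mul_le_mul_of_nonneg_right _ hs0
        linarith
      refine h3.trans (le_of_eq ?_)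
      field_simp
  -- the ends
  set e : ℝ := (((K * s : ℕ) : ℝ) - s * q) * α with hedef
  set e' : ℝ := ((K * s : ℕ) : ℝ) * α' + s * p with he'def
  have he_eq : e = s * ((K - q) * α) := by
    rw [hedef, hcK']; ring
  have he'_eq : e' = s * (K * α' + p) := by
    rw [he'def, hcK']; ring
  have c1 : L b 0 (s * p) ((K * s : ℕ) : ℤ) e' =
      L (shT ((s * p : ℕ) : ℝ) b) 0 0 ((K * s : ℕ) : ℤ) (e' - s * p) := by
    rw [(cov b 0 ((K * s : ℕ) : ℤ) 0 (e' - s * p)).1]
    push_cast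
    rw [zero_add, sub_add_cancel]
  have c2 : L b 0 (s * p) ((K * s : ℕ) : ℤ) e =
      L (shT ((s * p : ℕ) : ℝ) b) 0 0 ((K * s : ℕ) : ℤ) (e - s * p) := by
    rw [(cov b 0 ((K * s : ℕ) : ℤ) 0 (e - s * p)).1]
    push_cast
    rw [zero_add, sub_add_cancel]
  have hlev : (((K - q) * s : ℕ) : ℤ) + ((s * q : ℕ) : ℤ) = ((K * s : ℕ) : ℤ) := by
    have : (K - q) * s + s * q = K * s := by
      rw [mul_comm s q, ← add_mul, Nat.sub_add_cancel hq.le]
    exact_mod_cast this
  have c3 : ∀ u : ℝ, L b ((s * q : ℕ) : ℤ) 0 ((K * s : ℕ) : ℤ) u =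
      L (shL ((s * q : ℕ) : ℤ) b) 0 0 (((K - q) * s : ℕ) : ℤ) u := by
    intro u
    rw [(cov b 0 (((K - q) * s : ℕ) : ℤ) 0 u).2.1, hlev, zero_add]
  have w1 := e1 (e' - s * p) (by rw [he'_eq]; nlinarith [mul_nonneg hs0 (mul_nonneg (by linarith : (0:ℝ) ≤ K) hα'0.le)])
    (by
      rw [he'_eq]
      have : (K * α' + p) * (K * s) - (s * (K * α' + p) - s * p) = s * (K * α' * (K - 1) + K * p) := by ring
      have h4 : 0 ≤ s * (K * α' * (K - 1) + K * p) := by
        apply mul_nonneg hs0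
        apply add_nonneg
        · apply mul_nonneg (by positivity) (by linarith)
        · positivity
      linarith)
  have w2 := e1 (e - s * p) (by
      rw [he_eq]
      have : s * ((K - q) * α) - s * p = s * ((K - q) * α - p) := by ring
      rw [this]
      exact mul_nonneg hs0 (by linarith))
    (by
      rw [he_eq]
      have h4 : s * ((K - q) * α) - s * p ≤ s * (K * α') := by
        have h5 : ((K : ℝ) - q) * α ≤ K * α' := by
          apply mul_le_mul (by linarith) hα'.le hα.le (by linarith)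
        nlinarith [mul_le_mul_of_nonneg_left h5 hs0, mul_nonneg hs0 hp0]
      have h6 : s * (K * α') ≤ (K * α' + p) * (K * s) := by
        have : (K * α' + p) * (K * s) - s * (K * α') = s * (K * α' * (K - 1) + K * p) := by ring
        have h7 : 0 ≤ s * (K * α' * (K - 1) + K * p) := by
          apply mul_nonneg hs0
          apply add_nonneg
          · apply mul_nonneg (by positivity) (by linarith)
          · positivity
        linarith
      linarith)
  have hbound : s * (K * α' + p) ≤ (K * α' + p) * ((K - q) * s) := by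
    have : (K * α' + p) * ((K - q) * s) - s * (K * α' + p) = s * ((K * α' + p) * ((K : ℝ) - q - 1)) := by ring
    have h7 : 0 ≤ s * ((K * α' + p) * ((K : ℝ) - q - 1)) := by
      apply mul_nonneg hs0
      apply mul_nonneg (by positivity) (by linarith)
    linarith
  have w3 := e2 e' (by rw [he'_eq]; positivity) (by rw [he'_eq]; exact hbound)
  have w4 := e2 e (by rw [he_eq]; exact mul_nonneg hs0 (mul_nonneg (by linarith) hα.le))
    (by
      rw [he_eq]
      have h5 : ((K : ℝ) - q) * α ≤ K * α' := by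
        apply mul_le_mul (by linarith) hα'.le hα.le (by linarith)
      have h8 : s * (((K : ℝ) - q) * α) ≤ s * (K * α' + p) :=
        mul_le_mul_of_nonneg_left (by linarith) hs0
      exact h8.trans hbound)
  -- the square roots
  have r1 : Real.sqrt (((K * s : ℕ) : ℝ) * (e' - s * p)) = s * Real.sqrt (K * (K * α')) := by
    have : e' - s * p = s * (K * α') := by rw [he'_eq]; ring
    rw [this, hcK', sqrt_scale _ _ _ hs0]
  have r2 : Real.sqrt (((K * s : ℕ) : ℝ) * (e - s * p)) = s * Real.sqrt (K * ((K - q) * α - p)) := by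
    have : e - s * p = s * ((K - q) * α - p) := by rw [he_eq]; ring
    rw [this, hcK', sqrt_scale _ _ _ hs0]
  have r3 : Real.sqrt ((((K - q) * s : ℕ) : ℝ) * e') = s * Real.sqrt ((K - q) * (K * α' + p)) := by
    rw [he'_eq, hcK, sqrt_scale _ _ _ hs0]
  have r4 : Real.sqrt ((((K - q) * s : ℕ) : ℝ) * e) = s * Real.sqrt ((K - q) * ((K - q) * α)) := by
    rw [he_eq, hcK, sqrt_scale _ _ _ hs0]
  rw [r1, ← c1] at w1
  rw [r2, ← c2] at w2
  rw [r3, ← c3] at w3
  rw [r4, ← c3] at w4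
  have hWd : Wd b α α' p q s (K * s) =
      (L b 0 (s * p) ((K * s : ℕ) : ℤ) e' - L b 0 (s * p) ((K * s : ℕ) : ℤ) e) -
      (L b ((s * q : ℕ) : ℤ) 0 ((K * s : ℕ) : ℤ) e' - L b ((s * q : ℕ) : ℤ) 0 ((K * s : ℕ) : ℤ) e) := rfl
  rw [hWd]
  unfold wK
  rw [abs_le] at w1 w2 w3 w4 ⊢
  constructor <;> nlinarith [w1.1, w1.2, w2.1, w2.2, w3.1, w3.2, w4.1, w4.2]

theorem llw (cov : CovStmt) : LlwStmt := by
  intro X _ μ B c hSp hL α α' η p q K hα hα' hη hp1 hq1 hqK hpK
  have hK0 : 0 < K := lt_of_le_of_lt (Nat.zero_le q) hqK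
  have hKr : (0 : ℝ) < K := by exact_mod_cast hK0
  have hα'0 : 0 < α' := hα.trans hα'
  have hA : (0 : ℝ) < K * α' + p := by positivity
  have hη' : (0 : ℝ) < η / (4 * K) := by positivity
  have hlim := hL.2.2.2 (K * α' + p) (η / (4 * K)) hA hη'
  have t1 : Tendsto (fun s : ℕ => K * s) atTop atTop :=
    tendsto_atTop_mono (fun s => Nat.le_mul_of_pos_left s hK0) tendsto_id
  have t2 : Tendsto (fun s : ℕ => (K - q) * s) atTop atTop :=
    tendsto_atTop_mono (fun s => Nat.le_mul_of_pos_left s (Nat.sub_pos_of_lt hqK)) tendsto_id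
  have l1 := hlim.comp t1
  have l2 := hlim.comp t2
  have l3 := l1.add l2
  rw [add_zero] at l3
  refine tendsto_of_tendsto_of_tendsto_of_le_of_le tendsto_const_nhds l3 (fun _ => bot_le) ?_
  intro s
  obtain ⟨T1, hT1, hB1⟩ := hSp.tr ((s * p : ℕ) : ℚ)
  obtain ⟨T2, hT2, hB2⟩ := hSp.lv ((s * q : ℕ) : ℤ)
  have hB1' : ∀ᵐ x ∂μ, B (T1 x) = shT ((s * p : ℕ) : ℝ) (B x) := by
    filter_upwards [hB1] with x hx
    rw [hx]
    congr 1
  have s1 := shift_le hT1 _ hB1' (Bad c (K * α' + p) (η / (4 * K)) (K * s))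
  have s2 := shift_le hT2 _ hB2 (Bad c (K * α' + p) (η / (4 * K)) ((K - q) * s))
  have hsub : {x | η * s < |Wd (B x) α α' p q s (K * s) - s * wK c α α' p q K|} ⊆
      {x | Bad c (K * α' + p) (η / (4 * K)) (K * s) (shT ((s * p : ℕ) : ℝ) (B x))} ∪
      {x | Bad c (K * α' + p) (η / (4 * K)) ((K - q) * s) (shL ((s * q : ℕ) : ℤ) (B x))} := by
    intro x hx
    by_contra hcon
    rw [Set.mem_union, not_or] at hcon
    exact absurd hx (not_lt.mpr (det cov (B x) c α α' η p q K s hα hα' hη hqK hpK hcon.1 hcon.2))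
  calc μ {x | η * s < |Wd (B x) α α' p q s (K * s) - s * wK c α α' p q K|}
      ≤ μ _ := measure_mono hsub
    _ ≤ μ _ + μ _ := measure_union_le _ _
    _ ≤ μ _ + μ _ := add_le_add s1 s2

end

end Pool.Agent.BLP.V.H68
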