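import Pool.Agent.BLP.StmtsA
import Pool.Agent.BLP.StmtsM

/-!
# Squad BLP: row M_LOW
-/

namespace Pool.Agent.BLP.H68

open Pool.Agent.BLP MeasureTheory ProbabilityTheory Filter Topology Finset
open scoped ENNReal

theorem sb_le (hS : SplStmt) {b : Env} (hb : Cts b) {m : ℕ} (hm : 1 ≤ m) (k : ℕ) :
    SB b m (k + 1) ≤ L b 0 0 (((k : ℤ) + 1) * m - 1) (((k : ℝ) + 1) * m) := by
  have hm' : (1 : ℤ) ≤ m := by exact_mod_cast hm
  have hm'' : (1 : ℝ) ≤ m := by exact_mod_cast hm
  induction k with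
  | zero => simp [SB]
  | succ k ih =>
    have h1 : SB b m (k + 1 + 1) = SB b m (k + 1) +
        L b (((k : ℤ) + 1) * m) (((k : ℝ) + 1) * m) ((((k : ℤ) + 1) + 1) * m - 1)
          ((((k : ℝ) + 1) + 1) * m) := by
      unfold SB
      rw [Finset.sum_range_succ]
      push_cast
      rfl
    have hk0 : (0 : ℤ) ≤ k := by positivity
    have hk1 : (0 : ℝ) ≤ k := by positivity
    have h2 := (hS b hb 0 (((k : ℤ) + 1) * m - 1) ((((k : ℤ) + 1) + 1) * m - 1) 0
      ((((k : ℝ) + 1) + 1) * m) (by nlinarith) (by nlinarith) (by positivity)).1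
      (((k : ℝ) + 1) * m) (by positivity) (by nlinarith)
    rw [sub_add_cancel] at h2
    push_cast
    rw [h1]
    linarith

theorem path_low (hS : SplStmt) (hI : IncStmt) {b : Env} (hb : Cts b) {m : ℕ} (hm : 1 ≤ m)
    {n : ℕ} (hn : m ≤ n) :
    SB b m (n / m) - |b ((n / m * m : ℕ) : ℤ) n - b ((n / m * m : ℕ) : ℤ) ((n / m * m : ℕ) : ℝ)| ≤
      L b 0 0 ((n : ℤ) - 1) n := by
  have hk : 1 ≤ n / m := (Nat.one_le_div_iff (by omega)).2 hn
  obtain ⟨k, hk'⟩ : ∃ k, n / m = k + 1 := ⟨n / m - 1, by omega⟩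
  have h1 := sb_le hS hb hm k
  have hq : ((n / m * m : ℕ) : ℤ) = ((k : ℤ) + 1) * m := by rw [hk']; push_cast; rfl
  have hq' : ((n / m * m : ℕ) : ℝ) = ((k : ℝ) + 1) * m := by rw [hk']; push_cast; rfl
  rw [← hk', ← hq, ← hq'] at h1
  have hle : n / m * m ≤ n := Nat.div_mul_le_self n m
  set q : ℕ := n / m * m with hqdef
  have hm1 : 1 ≤ q := by
    have : 1 * 1 ≤ n / m * m := Nat.mul_le_mul hk hm
    omega
  rcases eq_or_lt_of_le hle with h | h
  · rw [h] at h1
    have := abs_nonneg (b (q : ℤ) n - b (q : ℤ) (q : ℝ))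
    linarith
  · have h2 := (hS b hb 0 ((q : ℤ) - 1) ((n : ℤ) - 1) 0 n (by omega) (by omega)
      (by positivity)).1 (q : ℝ) (by positivity) (by exact_mod_cast h.le)
    rw [sub_add_cancel] at h2
    have h3 := (hI b hb (q : ℤ) ((n : ℤ) - 1) (by omega)).2.2 (q : ℤ) (q : ℝ) (n : ℝ) le_rfl
      (by omega) (by exact_mod_cast h.le)
    have h4 := neg_abs_le (b (q : ℤ) n - b (q : ℤ) (q : ℝ))
    linarith

/-- the bound for the expectation of the last piece -/
noncomputable def CC (m : ℕ) : ℝ :=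
  ∑ r ∈ range m, ∫ y, |y| ∂(gaussianReal 0 ((r : ℝ)).toNNReal)

theorem last_le {X : Type} [MeasurableSpace X] {μ : Measure X} {B : X → Env} (h : Sp μ B)
    {m : ℕ} (hm : 1 ≤ m) (n : ℕ) :
    ∫ x, |B x ((n / m * m : ℕ) : ℤ) n - B x ((n / m * m : ℕ) : ℤ) ((n / m * m : ℕ) : ℝ)| ∂μ ≤
      CC m := by
  have hle : n / m * m ≤ n := Nat.div_mul_le_self n m
  have hr : n - n / m * m < m := by
    have h1 := Nat.div_add_mod n m
    have h2 := Nat.mod_lt n (show 0 < m by omega)
    rw [mul_comm] at h1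
    omega
  set q : ℕ := n / m * m with hq
  have hmeas : Measurable fun x => B x (q : ℤ) n - B x (q : ℤ) (q : ℝ) :=
    (h.mea _ _).sub (h.mea _ _)
  have hlaw := h.law (q : ℤ) (q : ℝ) (n : ℝ) (by exact_mod_cast hle)
  have e1 : ∫ x, |B x (q : ℤ) n - B x (q : ℤ) (q : ℝ)| ∂μ =
      ∫ y, |y| ∂(gaussianReal 0 (((n - q : ℕ) : ℝ)).toNNReal) := by
    rw [Nat.cast_sub hle, ← hlaw]
    exact (integral_map (f := fun y : ℝ => |y|) hmeas.aemeasurable
      continuous_abs.aestronglyMeasurable).symm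
  rw [e1]
  exact Finset.single_le_sum (f := fun r : ℕ => ∫ y, |y| ∂(gaussianReal 0 ((r : ℝ)).toNNReal))
    (fun r _ => integral_nonneg fun y => abs_nonneg y) (Finset.mem_range.2 hr)

theorem low (hOne : OneStmt) (hSpl : SplStmt) (hInc : IncStmt) (hBlk : BlkStmt)
    (hInt : IntStmt) : LowStmt := by
  intro X _ μ B h c hc
  have := h.prob
  rw [Metric.tendsto_atTop]
  intro ε hε
  obtain ⟨m, hm1, hm⟩ : ∃ m : ℕ, 1 ≤ m ∧ |gg μ B m / m - c| < ε / 4 := by
    obtain ⟨N, hN⟩ := (Metric.tendsto_atTop.1 hc) (ε / 4) (by positivity)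
    exact ⟨max N 1, le_max_right _ _, by
      have := hN (max N 1) (le_max_left _ _)
      rwa [Real.dist_eq] at this⟩
  have hdiv : Tendsto (fun n : ℕ => n / m) atTop atTop :=
    Nat.tendsto_div_const_atTop (by omega)
  have ha := (hBlk X μ B h m hm1).comp hdiv
  obtain ⟨N1, hN1⟩ := (Metric.tendsto_atTop.1 ha) (ε / 8) (by positivity)
  have hlim : Tendsto (fun n : ℕ => (|gg μ B m| + CC m) / (n : ℝ)) atTop (𝓝 0) :=
    tendsto_const_div_atTop_nhds_zero_nat _
  obtain ⟨N2, hN2⟩ := (Metric.tendsto_atTop.1 hlim) (ε / 4) (by positivity)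
  refine ⟨max (max N1 N2) m, fun n hn => ?_⟩
  have hn1 : N1 ≤ n := (le_max_left _ _).trans ((le_max_left _ _).trans hn)
  have hn2 : N2 ≤ n := (le_max_right _ _).trans ((le_max_left _ _).trans hn)
  have hnm : m ≤ n := (le_max_right _ _).trans hn
  have hA := hN1 n hn1
  have hB := hN2 n hn2
  rw [Real.dist_eq, sub_zero] at hA hB
  simp only [Function.comp_apply] at hA
  rw [Real.dist_eq, sub_zero, abs_of_nonneg (integral_nonneg fun x => le_max_right _ _)]
  set k : ℕ := n / m with hk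
  have hk1 : 1 ≤ k := (Nat.one_le_div_iff (by omega)).2 hnm
  set q : ℕ := n / m * m with hq
  have hqn : q ≤ n := Nat.div_mul_le_self n m
  have hqm : n - q < m := by
    have h1 := Nat.div_add_mod n m
    have h2 := Nat.mod_lt n (show 0 < m by omega)
    rw [mul_comm] at h1
    omega
  have hn0 : (1 : ℝ) ≤ n := by exact_mod_cast hm1.trans hnm
  have hm0 : (1 : ℝ) ≤ m := by exact_mod_cast hm1
  have hk0 : (1 : ℝ) ≤ k := by exact_mod_cast hk1
  have hqk : (q : ℝ) = k * m := by rw [hq]; push_cast; rfl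
  -- integrability
  have iL : ∀ (m' : ℤ) (s : ℝ) (n' : ℤ) (t : ℝ), Integrable (fun x => L (B x) m' s n' t) μ :=
    fun m' s n' t => (hInt X μ B h m' s n' t).integrable (by norm_num)
  have iSB : Integrable (fun x => SB (B x) m k) μ := by
    unfold SB
    exact integrable_finsetSum _ fun j _ => iL _ _ _ _
  have iR : Integrable (fun x => B x (q : ℤ) n - B x (q : ℤ) (q : ℝ)) μ := by
    have := iL (q : ℤ) (q : ℝ) (q : ℤ) (n : ℝ)
    refine this.congr (Eventually.of_forall fun x => ?_)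
    exact (hOne (B x)).1 (q : ℤ) (q : ℝ) (n : ℝ) (by exact_mod_cast hqn)
  have iD : Integrable (fun x => |SB (B x) m k / k - gg μ B m|) μ :=
    ((iSB.div_const _).sub (integrable_const _)).abs
  -- the pathwise bound
  have hpt : ∀ x, max (c - L (B x) 0 0 ((n : ℤ) - 1) n / n) 0 ≤
      |gg μ B m / m - c| + 2 * |SB (B x) m k / k - gg μ B m| + |gg μ B m| / n +
        |B x (q : ℤ) n - B x (q : ℤ) (q : ℝ)| / n := by
    intro x
    have h1 := path_low hSpl hInc (h.cts x) hm1 hnm
    rw [← hk, ← hq] at h1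
    set S := SB (B x) m k with hSdef
    set R := |B x (q : ℤ) n - B x (q : ℤ) (q : ℝ)| with hR
    set g := gg μ B m with hg
    have hR0 : 0 ≤ R := abs_nonneg _
    have hD0 : 0 ≤ |S / k - g| := abs_nonneg _
    have hn0' : (0 : ℝ) < n := by linarith
    have hk0' : (0 : ℝ) < k := by linarith
    have hm0' : (0 : ℝ) < m := by linarith
    refine max_le ?_ (by positivity)
    have e1 : c - L (B x) 0 0 ((n : ℤ) - 1) n / n ≤ c - (S - R) / n := by
      have : (S - R) / n ≤ L (B x) 0 0 ((n : ℤ) - 1) n / n :=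
        div_le_div_of_nonneg_right h1 hn0'.le
      linarith
    have e2 : c - (S - R) / n = (c - g / m) + (g - S / k) / m + (S / k) * ((n - q) / (m * n)) +
        R / n := by
      rw [hqk]
      field_simp
      ring
    have e3 : c - g / m ≤ |g / m - c| := by
      rw [abs_sub_comm]; exact le_abs_self _
    have e4 : (g - S / k) / m ≤ |S / k - g| := by
      rw [abs_sub_comm]
      calc (g - S / k) / m ≤ |g - S / k| / m := div_le_div_of_nonneg_right (le_abs_self _) hm0'.le
        _ ≤ |g - S / k| / 1 := div_le_div_of_nonneg_left (abs_nonneg _) one_pos hm0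
        _ = |g - S / k| := div_one _
    have hnq : (n : ℝ) - q ≤ m := by
      have : (n : ℝ) - q = ((n - q : ℕ) : ℝ) := by rw [Nat.cast_sub hqn]
      rw [this]
      exact_mod_cast hqm.le
    have hnq0 : 0 ≤ (n : ℝ) - q := by
      have : (q : ℝ) ≤ n := by exact_mod_cast hqn
      linarith
    have e5 : (S / k) * (((n : ℝ) - q) / (m * n)) ≤ |S / k - g| + |g| / n := by
      have f1 : ((n : ℝ) - q) / (m * n) ≤ 1 / n := by
        rw [div_le_div_iff₀ (by positivity) hn0']
        nlinarith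
      have f2 : S / k ≤ |S / k - g| + |g| := by
        have := le_abs_self (S / k - g)
        have := le_abs_self g
        linarith
      have f3 : 0 ≤ ((n : ℝ) - q) / (m * n) := by positivity
      calc (S / k) * (((n : ℝ) - q) / (m * n))
          ≤ (|S / k - g| + |g|) * (((n : ℝ) - q) / (m * n)) :=
            mul_le_mul_of_nonneg_right f2 f3
        _ ≤ (|S / k - g| + |g|) * (1 / n) := mul_le_mul_of_nonneg_left f1 (by positivity)
        _ = |S / k - g| / n + |g| / n := by ring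
        _ ≤ |S / k - g| / 1 + |g| / n := by
            have := div_le_div_of_nonneg_left hD0 one_pos hn0
            linarith
        _ = |S / k - g| + |g| / n := by rw [div_one]
    linarith
  have iAll : Integrable (fun x => |gg μ B m / m - c| + 2 * |SB (B x) m k / k - gg μ B m| +
      |gg μ B m| / n + |B x (q : ℤ) n - B x (q : ℤ) (q : ℝ)| / n) μ :=
    (((integrable_const _).add (iD.const_mul 2)).add (integrable_const _)).add
      (iR.abs.div_const _)
  have hint : ∫ x, max (c - L (B x) 0 0 ((n : ℤ) - 1) n / n) 0 ∂μ ≤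
      |gg μ B m / m - c| + 2 * ∫ x, |SB (B x) m k / k - gg μ B m| ∂μ + |gg μ B m| / n +
        (∫ x, |B x (q : ℤ) n - B x (q : ℤ) (q : ℝ)| ∂μ) / n := by
    refine (integral_mono_of_nonneg (Eventually.of_forall fun x => le_max_right _ _) iAll
      (Eventually.of_forall hpt)).trans (le_of_eq ?_)
    have i1 : Integrable (fun x => 2 * |SB (B x) m k / k - gg μ B m|) μ := iD.const_mul 2
    have i2 : Integrable (fun x => |B x (q : ℤ) n - B x (q : ℤ) (q : ℝ)| / n) μ :=
      iR.abs.div_const _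
    have i12 : Integrable (fun x => 2 * |SB (B x) m k / k - gg μ B m| +
        |B x (q : ℤ) n - B x (q : ℤ) (q : ℝ)| / n) μ := i1.add i2
    have e0 : ∀ x, |gg μ B m / m - c| + 2 * |SB (B x) m k / k - gg μ B m| + |gg μ B m| / n +
        |B x (q : ℤ) n - B x (q : ℤ) (q : ℝ)| / n = (|gg μ B m / m - c| + |gg μ B m| / n) +
        (2 * |SB (B x) m k / k - gg μ B m| + |B x (q : ℤ) n - B x (q : ℤ) (q : ℝ)| / n) := by
      intro x; ring
    simp_rw [e0]
    rw [integral_add (integrable_const _) i12, integral_add i1 i2, integral_const_mul,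
      integral_div]
    simp only [integral_const, probReal_univ, one_smul]
    ring
  have hlast := last_le h hm1 n
  rw [← hq] at hlast
  have hdivn : (∫ x, |B x (q : ℤ) n - B x (q : ℤ) (q : ℝ)| ∂μ) / n ≤ CC m / n :=
    div_le_div_of_nonneg_right hlast (by linarith)
  have hA' := (le_abs_self _).trans_lt hA
  have hB' := (le_abs_self _).trans_lt hB
  rw [add_div] at hB'
  linarith

end Pool.Agent.BLP.H68
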